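import Mathlib

/-!
# Counting with the boundary graphs of the regions
-/

set_option autoImplicit false

namespace Pool.Agent.Q176.MG

open SimpleGraph Finset

/-- `P` is the graph drawn on the surface, `B x` the boundary graph of the region `x`. -/
structure Sys {W X : Type} (P : SimpleGraph W) (B : X → SimpleGraph W) : Prop where
  le : ∀ x, B x ≤ P
  cov : ∀ a b, P.Adj a b → ∃ x, (B x).Adj a b
  two : ∀ a b x y z, (B x).Adj a b → (B y).Adj a b → (B z).Adj a b → x = y ∨ x = z ∨ y = z
  turn : ∀ x w y, (B x).Adj w y → ∃ y', y' ≠ y ∧ (B x).Adj w y'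

section Cnt

variable {W X : Type} [Fintype W] [Fintype X]

open scoped Classical in
/-- The degree of `w`. -/
noncomputable def dg (P : SimpleGraph W) (w : W) : ℕ := (univ.filter (fun y => P.Adj w y)).card

open scoped Classical in
/-- The branch points. -/
noncomputable def Br (P : SimpleGraph W) : Finset W := univ.filter (fun w => 3 ≤ dg P w)

open scoped Classical in
/-- The components with an edge and without a branch point. -/
noncomputable def KK (P : SimpleGraph W) : Finset P.ConnectedComponent :=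
  univ.filter (fun K => (∃ y z, P.connectedComponentMk y = K ∧ P.Adj y z) ∧
    ∀ y, P.connectedComponentMk y = K → dg P y ≤ 2)

lemma mem_Br {P : SimpleGraph W} {w : W} : w ∈ Br P ↔ 3 ≤ dg P w := by
  simp [Br]

lemma mem_KK {P : SimpleGraph W} {K : P.ConnectedComponent} :
    K ∈ KK P ↔ (∃ y z, P.connectedComponentMk y = K ∧ P.Adj y z) ∧
    ∀ y, P.connectedComponentMk y = K → dg P y ≤ 2 := by
  simp [KK]

lemma dg_pos {P : SimpleGraph W} {w y : W} (h : P.Adj w y) : 0 < dg P w := by
  classical
  unfold dg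
  exact Finset.card_pos.2 ⟨y, by simp [h]⟩

lemma two_le_dg {P : SimpleGraph W} {w y y' : W} (h : P.Adj w y) (h' : P.Adj w y')
    (hne : y' ≠ y) : 2 ≤ dg P w := by
  classical
  unfold dg
  have : ({y, y'} : Finset W) ⊆ univ.filter (fun y => P.Adj w y) := by
    intro a ha
    simp only [mem_insert, mem_singleton] at ha
    rcases ha with rfl | rfl <;> simp [h, h']
  have h2 := card_le_card this
  rwa [card_pair hne.symm] at h2

/-- at a point of degree at most two -/
lemma all_of_le_two {P : SimpleGraph W} {w y y' : W} (h : P.Adj w y) (h' : P.Adj w y')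
    (hne : y' ≠ y) (hd : dg P w ≤ 2) {z : W} (hz : P.Adj w z) : z = y ∨ z = y' := by
  classical
  have h1 : ({y, y'} : Finset W) ⊆ univ.filter (fun y => P.Adj w y) := by
    intro a ha
    simp only [mem_insert, mem_singleton] at ha
    rcases ha with rfl | rfl <;> simp [h, h']
  have h2 : ({y, y'} : Finset W) = univ.filter (fun y => P.Adj w y) := by
    apply Finset.eq_of_subset_of_card_le h1
    rw [card_pair hne.symm]
    exact hd
  have h3 : z ∈ univ.filter (fun y => P.Adj w y) := by simp [hz]
  rw [← h2] at h3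
  simpa using h3

lemma sum_dg (P : SimpleGraph W) : ∑ w, dg P w = 2 * P.edgeSet.ncard := by
  classical
  have h := P.sum_degrees_eq_twice_card_edges
  have h2 : P.edgeSet.ncard = #P.edgeFinset := by
    rw [← coe_edgeFinset, Set.ncard_coe_finset]
  rw [h2, ← h]
  apply Finset.sum_congr rfl
  intro w _
  unfold dg
  rw [← card_neighborFinset_eq_degree]
  congr 1
  ext y
  simp

variable {P : SimpleGraph W} {B : X → SimpleGraph W}

lemma Sys.two_le (hs : Sys P B) {w y : W} (h : P.Adj w y) : 2 ≤ dg P w := by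
  obtain ⟨x, hx⟩ := hs.cov _ _ h
  obtain ⟨y', hy', h'⟩ := hs.turn _ _ _ hx
  exact two_le_dg h (hs.le _ h') hy'

/-- If the region `x` meets `w`, of degree two, then all edges at `w` are on its boundary. -/
lemma Sys.all_edges (hs : Sys P B) {x : X} {w y : W} (h : (B x).Adj w y) (hd : dg P w ≤ 2)
    {z : W} (hz : P.Adj w z) : (B x).Adj w z := by
  obtain ⟨y', hy', h'⟩ := hs.turn _ _ _ h
  rcases all_of_le_two (hs.le _ h) (hs.le _ h') hy' hd hz with rfl | rfl
  · exact h
  · exact h'

/-- the same along a component without branch points -/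
lemma Sys.all_comp (hs : Sys P B) {x : X} {K : P.ConnectedComponent} (hK : K ∈ KK P) {y z : W}
    (hy : P.connectedComponentMk y = K) (h : (B x).Adj y z) {a b : W}
    (ha : P.connectedComponentMk a = K) (hab : P.Adj a b) : (B x).Adj a b := by
  have hr : P.Reachable y a := ConnectedComponent.exact (hy.trans ha.symm)
  obtain ⟨p⟩ := hr
  have key : ∀ (u v : W) (p : P.Walk u v), P.connectedComponentMk u = K →
      (∀ c, P.Adj u c → (B x).Adj u c) → (∀ c, P.Adj v c → (B x).Adj v c) := by
    intro u v p
    induction p with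
    | nil => intro _ h; exact h
    | @cons u v w h _ ih =>
      intro hu hall
      have hv : P.connectedComponentMk v = K := by
        rw [← hu]
        exact ConnectedComponent.sound h.symm.reachable
      apply ih hv
      intro c hc
      exact hs.all_edges (hall v h).symm ((mem_KK.1 hK).2 v hv) hc
  exact key y a p hy (fun c hc => hs.all_edges h ((mem_KK.1 hK).2 y hy) hc) b hab

open scoped Classical in
/-- the number of branch points at `x` -/
noncomputable def ca (P : SimpleGraph W) (B : X → SimpleGraph W) (x : X) : Finset W :=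
  (Br P).filter (fun w => ∃ y, (B x).Adj w y)

open scoped Classical in
/-- the pairs (branch point, boundary edge) at `x` -/
noncomputable def cs (P : SimpleGraph W) (B : X → SimpleGraph W) (x : X) : Finset (W × W) :=
  univ.filter (fun e => e.1 ∈ Br P ∧ (B x).Adj e.1 e.2)

open scoped Classical in
/-- the branchless components at `x` -/
noncomputable def ck (P : SimpleGraph W) (B : X → SimpleGraph W) (x : X) :
    Finset P.ConnectedComponent :=
  (KK P).filter (fun K => ∃ y z, P.connectedComponentMk y = K ∧ (B x).Adj y z)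

lemma cs_card (x : X) : #(cs P B x) = ∑ w ∈ Br P, dg (B x) w := by
  classical
  have h1 : ∑ w ∈ Br P, dg (B x) w = ∑ w, if w ∈ Br P then dg (B x) w else 0 := by
    rw [← Finset.sum_filter]
    apply Finset.sum_congr _ (fun _ _ => rfl)
    ext w
    simp
  rw [h1, cs, card_filter, Fintype.sum_prod_type]
  apply Finset.sum_congr rfl
  intro w _
  by_cases h : w ∈ Br P
  · simp only [h, true_and, if_true]
    rw [← card_filter]
    rfl
  · simp [h]

lemma Sys.ca_le (hs : Sys P B) (x : X) : 2 * #(ca P B x) ≤ #(cs P B x) := by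
  classical
  rw [cs_card, ca, card_filter, mul_sum]
  apply Finset.sum_le_sum
  intro w _
  split_ifs with h
  · obtain ⟨y, hy⟩ := h
    obtain ⟨y', hy', h'⟩ := hs.turn _ _ _ hy
    simpa using two_le_dg hy h' hy'
  · simp

lemma card_le_two {X : Type} [Fintype X] (p : X → Prop) [DecidablePred p]
    (h : ∀ x y z, p x → p y → p z → x = y ∨ x = z ∨ y = z) : #(univ.filter p) ≤ 2 := by
  by_contra hc
  push Not at hc
  obtain ⟨a, b, c, ha, hb, hc', h1, h2, h3⟩ := Finset.two_lt_card_iff.1 hc
  simp only [mem_filter, mem_univ, true_and] at ha hb hc'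
  rcases h a b c ha hb hc' with h | h | h
  · exact h1 h
  · exact h2 h
  · exact h3 h

lemma Sys.sum_cs (hs : Sys P B) : ∑ x, #(cs P B x) ≤ 2 * ∑ w ∈ Br P, dg P w := by
  classical
  simp only [cs_card]
  rw [Finset.sum_comm, mul_sum]
  apply Finset.sum_le_sum
  intro w _
  have h1 : ∑ x, dg (B x) w = ∑ x, ∑ y, (if (B x).Adj w y then 1 else 0) := by
    apply Finset.sum_congr rfl
    intro x _
    unfold dg
    rw [card_filter]
  rw [h1, Finset.sum_comm]
  unfold dg
  rw [card_filter, mul_sum]
  apply Finset.sum_le_sum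
  intro y _
  by_cases h : P.Adj w y
  · rw [if_pos h, ← card_filter]
    exact card_le_two _ (fun a b c ha hb hc => hs.two w y a b c ha hb hc)
  · rw [if_neg h]
    have : ∀ x, ¬ (B x).Adj w y := fun x hx => h (hs.le _ hx)
    simp [this]

lemma Sys.sum_ck (hs : Sys P B) : ∑ x, #(ck P B x) ≤ 2 * #(KK P) := by
  classical
  unfold ck
  simp only [card_filter]
  rw [Finset.sum_comm, Finset.card_eq_sum_ones, mul_sum]
  apply Finset.sum_le_sum
  intro K hK
  rw [← card_filter]
  obtain ⟨⟨a, b, ha, hab⟩, -⟩ := mem_KK.1 hK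
  apply card_le_two
  rintro x y z ⟨y1, z1, h1, h1'⟩ ⟨y2, z2, h2, h2'⟩ ⟨y3, z3, h3, h3'⟩
  exact hs.two a b x y z (hs.all_comp hK h1 h1' ha hab) (hs.all_comp hK h2 h2' ha hab)
    (hs.all_comp hK h3 h3' ha hab)

lemma iso_comp (P : SimpleGraph W) :
    #(univ.filter (fun w => dg P w = 0)) + #(KK P) ≤ Nat.card P.ConnectedComponent := by
  classical
  have h0 : ∀ w, dg P w = 0 → ∀ v, P.Reachable w v → v = w := by
    rintro w hw v ⟨p⟩
    cases p with
    | nil => rfl
    | cons h _ => exact absurd (dg_pos h) (by omega)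
  have h1 : #((univ.filter (fun w => dg P w = 0)).image P.connectedComponentMk) =
      #(univ.filter (fun w => dg P w = 0)) := by
    apply card_image_of_injOn
    intro a ha b hb hab
    simp only [coe_filter, mem_univ, true_and, Set.mem_ofPred_eq] at ha hb
    exact (h0 a ha b (ConnectedComponent.exact hab)).symm
  rw [← h1, ← card_union_of_disjoint, Nat.card_eq_fintype_card]
  · exact card_le_univ _
  · rw [Finset.disjoint_left]
    intro K h2 h3
    obtain ⟨⟨y, z, hy, hyz⟩, -⟩ := mem_KK.1 h3
    simp only [mem_image, mem_filter, mem_univ, true_and] at h2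
    obtain ⟨w, hw, rfl⟩ := h2
    have := h0 w hw y (ConnectedComponent.exact hy.symm)
    subst this
    exact absurd (dg_pos hyz) (by omega)

lemma Sys.br_bound (hs : Sys P B) {g : ℕ}
    (he : P.edgeSet.ncard + Nat.card P.ConnectedComponent + 1 ≤ Nat.card W + g + Nat.card X) :
    ∑ w ∈ Br P, dg P w + 6 * #(KK P) + 6 ≤ 6 * g + 6 * Nat.card X := by
  classical
  have h1 := iso_comp P
  have h2 := sum_dg P
  have h3 : ∑ w ∈ Br P, dg P w + 6 * Nat.card W ≤
      3 * ∑ w, dg P w + 6 * #(univ.filter (fun w => dg P w = 0)) := by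
    rw [Nat.card_eq_fintype_card, ← card_univ, card_eq_sum_ones, card_filter, Br, sum_filter,
      mul_sum, mul_sum, mul_sum, ← sum_add_distrib, ← sum_add_distrib]
    apply Finset.sum_le_sum
    intro w _
    have h4 : dg P w ≠ 1 := by
      intro h
      have : 0 < #(univ.filter (fun y => P.Adj w y)) := by
        change 0 < dg P w
        omega
      obtain ⟨y, hy⟩ := card_pos.1 this
      simp only [mem_filter, mem_univ, true_and] at hy
      have := hs.two_le hy
      omega
    split_ifs <;> omega
  omega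

/-- **Counting.** Some region has few branch points and branchless components. -/
theorem Sys.exists_small [Nonempty X] (hs : Sys P B) {g : ℕ} (hg : 1 ≤ g)
    (he : P.edgeSet.ncard + Nat.card P.ConnectedComponent + 1 ≤ Nat.card W + g + Nat.card X) :
    ∃ x, #(ca P B x) + #(cs P B x) + #(ck P B x) ≤ 18 * g := by
  classical
  by_contra hc
  push Not at hc
  have h1 := hs.br_bound he
  have h2 := hs.sum_cs
  have h3 := hs.sum_ck
  have h4 : 2 * ∑ x, #(ca P B x) ≤ ∑ x, #(cs P B x) := by
    rw [mul_sum]
    exact Finset.sum_le_sum (fun x _ => hs.ca_le x)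
  have h5 : Nat.card X * (18 * g + 1) ≤ ∑ x, (#(ca P B x) + #(cs P B x) + #(ck P B x)) := by
    rw [Nat.card_eq_fintype_card, ← card_univ, ← smul_eq_mul, ← sum_const]
    exact Finset.sum_le_sum (fun x _ => hc x)
  rw [sum_add_distrib, sum_add_distrib] at h5
  have h6 : 0 < Nat.card X := Nat.card_pos
  obtain ⟨g, rfl⟩ : ∃ k, g = k + 1 := ⟨g - 1, by omega⟩
  obtain ⟨m, hm⟩ : ∃ k, Nat.card X = k + 1 := ⟨Nat.card X - 1, by omega⟩
  rw [hm] at h1 h5
  have h7 : (m + 1) * (18 * (g + 1) + 1) ≤ 18 * g + 18 + 18 * m := by omega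
  nlinarith [Nat.zero_le (g * m)]

/-- **Covering.** Two regions meeting at a point meet in one of three ways. -/
theorem Sys.cover (hs : Sys P B) {x v : X} {w : W} (hx : ∃ y, (B x).Adj w y)
    (hv : ∃ y, (B v).Adj w y) :
    w ∈ ca P B x ∨ (∃ e ∈ cs P B x, (B v).Adj e.1 e.2) ∨
      ∃ K ∈ ck P B x, ∃ y z, P.connectedComponentMk y = K ∧ (B v).Adj y z := by
  classical
  by_cases hw : 3 ≤ dg P w
  · left
    simp only [ca, mem_filter, mem_Br]
    exact ⟨hw, hx⟩
  right
  obtain ⟨y, hy⟩ := hx
  obtain ⟨z, hz⟩ := hv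
  by_cases hK : P.connectedComponentMk w ∈ KK P
  · right
    refine ⟨P.connectedComponentMk w, ?_, w, z, rfl, hz⟩
    simp only [ck, mem_filter]
    exact ⟨hK, w, y, rfl, hy⟩
  · left
    obtain ⟨b, hb, hb3⟩ : ∃ b, P.connectedComponentMk b = P.connectedComponentMk w ∧
        3 ≤ dg P b := by
      by_contra hcon
      push Not at hcon
      exact hK (mem_KK.2 ⟨⟨w, y, rfl, hs.le _ hy⟩, fun b hb => by have := hcon b hb; omega⟩)
    obtain ⟨p⟩ : P.Reachable w b := ConnectedComponent.exact hb.symm
    let A : Set W := {u | dg P u ≤ 2 ∧ ∀ c, P.Adj u c → (B x).Adj u c ∧ (B v).Adj u c}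
    have hwA : w ∈ A := ⟨by omega, fun c hc =>
      ⟨hs.all_edges hy (by omega) hc, hs.all_edges hz (by omega) hc⟩⟩
    have hbA : b ∉ A := fun h => by have := h.1; omega
    obtain ⟨d, -, hd1, hd2⟩ := p.exists_boundary_dart A hwA hbA
    obtain ⟨h1, h2⟩ := hd1.2 d.snd d.adj
    have h3 : 3 ≤ dg P d.snd := by
      by_contra hcon
      exact hd2 ⟨by omega, fun c hc =>
        ⟨hs.all_edges h1.symm (by omega) hc, hs.all_edges h2.symm (by omega) hc⟩⟩
    refine ⟨(d.snd, d.fst), ?_, h2.symm⟩
    simp only [cs, mem_filter, mem_univ, true_and, mem_Br]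
    exact ⟨h3, h1.symm⟩

end Cnt

end Pool.Agent.Q176.MG
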