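import Pool.Agent.Q176.MG.Vor
import Pool.Agent.Q176.MG.Cnt

/-!
# Clique cover degeneracy of map graphs on surfaces
-/

set_option autoImplicit false

namespace Pool.Agent.Q176.MG

open SimpleGraph Pool.Agent.H968R3

section Defs

variable {W : Type} {T : Finset (Finset W)}

/-- The point `w` of the triangulation lies on (the closure of) the face `c` of the drawing `H`. -/
def OnFace (T : Finset (Finset W)) (H : SimpleGraph W) (w : W)
    (c : (dual T H).ConnectedComponent) : Prop :=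
  ∃ t : {t : Finset W // t ∈ T}, (dual T H).connectedComponentMk t = c ∧ w ∈ t.1

end Defs

/-- `G` is a `g`-map graph. The surface of Euler genus `g` is given by a triangulation `T` with
points `Fin n`, the graph drawn on it by a subgraph `H` of the one-skeleton; its faces are the
components of the dual graph after removing the edges dual to `H`; `nation` chooses, injectively,
the faces that are nations (the other ones are lakes). Two nations are adjacent when their faces
have a common vertex. -/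
def IsMapGraph (g : ℕ) {V : Type} (G : SimpleGraph V) : Prop :=
  ∃ (n : ℕ) (T : Finset (Finset (Fin n))) (H : SimpleGraph (Fin n))
    (nation : V → (dual T H).ConnectedComponent),
    IsClosedSurface T ∧ eulerChar T = 2 - (g : ℤ) ∧ H ≤ skel T ∧ Function.Injective nation ∧
      ∀ u v, G.Adj u v ↔ u ≠ v ∧ ∃ w, OnFace T H w (nation u) ∧ OnFace T H w (nation v)

/-- The set `S` is the union of at most `k` cliques of `G`. -/
def CliqueCoverLE {V : Type} (G : SimpleGraph V) (S : Set V) (k : ℕ) : Prop :=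
  ∃ 𝒞 : Finset (Set V), 𝒞.card ≤ k ∧ (∀ C ∈ 𝒞, G.IsClique C) ∧ ⋃ C ∈ 𝒞, C = S

/-- The clique cover degeneracy of `G` is at most `k`: in every nonnull induced subgraph some
vertex has a neighbourhood that is the union of at most `k` cliques. -/
def CliqueCoverDegeneracyLE {V : Type} (G : SimpleGraph V) (k : ℕ) : Prop :=
  ∀ X : Set V, X.Nonempty → ∃ v ∈ X, CliqueCoverLE G {u | u ∈ X ∧ G.Adj v u} k

section Bd

variable {W : Type} {T : Finset (Finset W)} {X : Type} {π : {t : Finset W // t ∈ T} → X}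

/-- The boundary graph of the label `x`. -/
def Bd (π : {t : Finset W // t ∈ T} → X) (x : X) : SimpleGraph W where
  Adj y z := y ≠ z ∧ ∃ t t' : {t : Finset W // t ∈ T}, y ∈ t.1 ∧ z ∈ t.1 ∧ y ∈ t'.1 ∧ z ∈ t'.1 ∧
    π t = x ∧ π t' ≠ x
  symm := ⟨fun _ _ ⟨h, t, t', h1, h2, h3, h4, h5, h6⟩ => ⟨h.symm, t, t', h2, h1, h4, h3, h5, h6⟩⟩
  loopless := ⟨fun _ h => h.1 rfl⟩

/-- All triangles with one label are joined. -/
def full (π : {t : Finset W // t ∈ T} → X) : SimpleGraph {t : Finset W // t ∈ T} where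
  Adj t t' := t ≠ t' ∧ π t = π t'
  symm := ⟨fun _ _ h => ⟨h.1.symm, h.2.symm⟩⟩
  loopless := ⟨fun _ h => h.1 rfl⟩

lemma full_comp {t t' : {t : Finset W // t ∈ T}} :
    (full π).connectedComponentMk t = (full π).connectedComponentMk t' ↔ π t = π t' := by
  constructor
  · intro h
    obtain ⟨p⟩ := ConnectedComponent.exact h
    clear h
    induction p with
    | nil => rfl
    | cons h _ ih => exact h.2.trans ih
  · intro h
    by_cases e : t = t'
    · rw [e]
    · have : (full π).Adj t t' := ⟨e, h⟩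
      exact ConnectedComponent.sound this.reachable

lemma Bd_eq (t₀ : {t : Finset W // t ∈ T}) :
    Bd π (π t₀) = bdry (full π) ((full π).connectedComponentMk t₀) := by
  ext y z
  constructor
  · rintro ⟨h, t, t', h1, h2, h3, h4, h5, h6⟩
    exact ⟨h, t, t', h1, h2, h3, h4, full_comp.2 h5, fun e => h6 (full_comp.1 e)⟩
  · rintro ⟨h, t, t', h1, h2, h3, h4, h5, h6⟩
    exact ⟨h, t, t', h1, h2, h3, h4, full_comp.1 h5, fun e => h6 (full_comp.2 e)⟩

lemma Bd_turn [Finite W] (hT : IsClosedSurface T) (x : X) (w y : W) (h : (Bd π x).Adj w y) :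
    ∃ y', y' ≠ y ∧ (Bd π x).Adj w y' := by
  obtain ⟨-, t₀, -, -, -, -, -, h5, -⟩ := id h
  subst h5
  rw [Bd_eq] at h ⊢
  exact bdry_two hT _ w y h

lemma sys_Bd [Finite W] (hT : IsClosedSurface T) : Sys (Hpi π) (Bd π) where
  le := by
    rintro x y z ⟨h, t, t', h1, h2, h3, h4, h5, h6⟩
    exact ⟨h, t, t', h1, h2, h3, h4, fun e => h6 (e.symm.trans h5)⟩
  cov := by
    rintro y z ⟨h, t, t', h1, h2, h3, h4, h5⟩
    exact ⟨π t, h, t, t', h1, h2, h3, h4, rfl, fun e => h5 e.symm⟩
  two := by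
    rintro a b x y z ⟨h, t, t', h1, h2, h3, h4, h5, h6⟩ ⟨-, s, -, g1, g2, -, -, g5, -⟩
      ⟨-, r, -, k1, k2, -, -, k5, -⟩
    have hne : t.1 ≠ t'.1 := fun e => h6 (by rw [← h5, Subtype.ext e])
    have c1 := eq_or_eq hT h t.2 t'.2 s.2 hne h1 h2 h3 h4 g1 g2
    have c2 := eq_or_eq hT h t.2 t'.2 r.2 hne h1 h2 h3 h4 k1 k2
    have e1 : s = t ∨ s = t' := c1.imp Subtype.ext Subtype.ext
    have e2 : r = t ∨ r = t' := c2.imp Subtype.ext Subtype.ext
    rcases e1 with rfl | rfl
    · left; rw [← h5, ← g5]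
    · rcases e2 with rfl | rfl
      · right; left; rw [← h5, ← k5]
      · right; right; rw [← g5, ← k5]
  turn := Bd_turn hT

/-- At a point with two labels the boundary of each of them has an edge. -/
lemma exists_Bd (hT : IsClosedSurface T) {x : X} {w : W} {t₀ t₁ : {t : Finset W // t ∈ T}}
    (h0 : w ∈ t₀.1) (h1 : w ∈ t₁.1) (hx : π t₀ = x) (hx' : π t₁ ≠ x) :
    ∃ y, (Bd π x).Adj w y := by
  classical
  by_contra hcon
  push Not at hcon
  obtain ⟨a, ha, haw⟩ : ∃ a ∈ t₀.1, a ≠ w := by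
    have : 1 < t₀.1.card := by rw [hT.card_eq _ t₀.2]; omega
    exact Finset.exists_mem_ne this w
  obtain ⟨b, hb, hbw⟩ : ∃ b ∈ t₁.1, b ≠ w := by
    have : 1 < t₁.1.card := by rw [hT.card_eq _ t₁.2]; omega
    exact Finset.exists_mem_ne this w
  obtain ⟨p⟩ := hT.link w a b ⟨haw.symm, t₀.1, t₀.2, h0, ha⟩ ⟨hbw.symm, t₁.1, t₁.2, h1, hb⟩
  have hall : ∀ (u v : W) (p : (link T w).Walk u v),
      (∀ t : {t : Finset W // t ∈ T}, w ∈ t.1 → u ∈ t.1 → π t = x) → u ≠ w →
      (∀ t : {t : Finset W // t ∈ T}, w ∈ t.1 → v ∈ t.1 → π t = x) := by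
    intro u v p
    induction p with
    | nil => intro h _; exact h
    | @cons u v c h _ ih =>
      intro h2 _
      obtain ⟨huv, huw, hvw, r, hr, hwr, hur, hvr⟩ := h
      apply ih _ hvw
      intro t ht1 ht2
      by_contra hne
      exact hcon v ⟨hvw.symm, ⟨r, hr⟩, t, hwr, hvr, ht1, ht2, h2 ⟨r, hr⟩ hwr hur, hne⟩
  refine hx' (hall a b p ?_ haw t₁ h1 hb)
  intro t ht1 ht2
  by_contra hne
  exact hcon a ⟨haw.symm, t₀, t, h0, ha, ht1, ht2, hx, hne⟩

end Bd

/-- The number of regions. -/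
theorem comp_le {W : Type} [Finite W] {T : Finset (Finset W)} {X : Type} [Finite X]
    {π : {t : Finset W // t ∈ T} → X}
    (h : ∀ a b, π a = π b → (dual T (Hpi π)).Reachable a b) :
    Nat.card (dual T (Hpi π)).ConnectedComponent ≤ Nat.card X := by
  apply Nat.card_le_card_of_injective
    (Quot.lift π (fun a b hab => pi_reach hab) : (dual T (Hpi π)).ConnectedComponent → X)
  intro a b hab
  induction a using ConnectedComponent.ind with
  | _ a =>
    induction b using ConnectedComponent.ind with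
    | _ b => exact ConnectedComponent.sound (h a b hab)

/-- **Map graphs on surfaces have bounded clique cover degeneracy.** -/
theorem main {g : ℕ} (hg : 1 ≤ g) {V : Type} (G : SimpleGraph V) (hG : IsMapGraph g G) :
    CliqueCoverDegeneracyLE G (18 * g) := by
  classical
  obtain ⟨n, T, H, nation, hT, hχ, hH, hinj, hadj⟩ := hG
  intro X hX
  -- the labels
  have hfin : Finite (dual T H).ConnectedComponent := inferInstance
  have : Finite V := Finite.of_injective nation hinj
  have : Fintype {v // v ∈ X} := Fintype.ofFinite _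
  obtain ⟨x₀, hx₀⟩ := hX
  have hne : Nonempty {v // v ∈ X} := ⟨⟨x₀, hx₀⟩⟩
  let M : Set {t : Finset (Fin n) // t ∈ T} :=
    {t | ∃ v : {v // v ∈ X}, (dual T H).connectedComponentMk t = nation v}
  let π₀ : {t : Finset (Fin n) // t ∈ T} → {v // v ∈ X} := fun t =>
    if h : ∃ v : {v // v ∈ X}, (dual T H).connectedComponentMk t = nation v then h.choose
    else ⟨x₀, hx₀⟩
  have hπ₀ : ∀ t (v : {v // v ∈ X}), (dual T H).connectedComponentMk t = nation v →
      π₀ t = v := by
    intro t v h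
    have hex : ∃ v : {v // v ∈ X}, (dual T H).connectedComponentMk t = nation v := ⟨v, h⟩
    simp only [π₀, dif_pos hex]
    exact Subtype.ext (hinj (hex.choose_spec.symm.trans h))
  have hM : M.Nonempty := by
    obtain ⟨t, ht⟩ := (nation x₀).exists_rep
    exact ⟨t, ⟨x₀, hx₀⟩, ht⟩
  obtain ⟨π, hπ1, hπ2⟩ := voronoi (dual T ⊥) (dual_bot_conn hT) _ M π₀ hM rfl
  have hπ : ∀ t (v : {v // v ∈ X}), (dual T H).connectedComponentMk t = nation v →
      π t = v := fun t v h => (hπ1 t ⟨v, h⟩).trans (hπ₀ t v h)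
  -- a nation is connected inside its label
  have hnat : ∀ (v : {v // v ∈ X}) (a b : {t : Finset (Fin n) // t ∈ T}),
      (dual T H).connectedComponentMk a = nation v →
      (dual T H).connectedComponentMk b = nation v → (fib (dual T ⊥) π).Reachable a b := by
    intro v a b ha hb
    obtain ⟨p⟩ := ConnectedComponent.exact (ha.trans hb.symm)
    clear hb
    induction p with
    | nil => exact Reachable.refl _
    | @cons a c b h _ ih =>
      have hc : (dual T H).connectedComponentMk c = nation v := by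
        rw [← ha]; exact ConnectedComponent.sound h.symm.reachable
      have hac : (fib (dual T ⊥) π).Adj a c := by
        obtain ⟨h1, x, y, h2, h3, h4, h5, h6, -⟩ := h
        exact ⟨⟨h1, x, y, h2, h3, h4, h5, h6, fun h => h⟩, (hπ a v ha).trans (hπ c v hc).symm⟩
      exact hac.reachable.trans (ih hc)
  have hreg : ∀ a b, π a = π b → (dual T (Hpi π)).Reachable a b := by
    intro a b hab
    obtain ⟨m, ⟨v, hv⟩, hm⟩ := hπ2 a
    obtain ⟨m', ⟨v', hv'⟩, hm'⟩ := hπ2 b
    have e1 := fib_reach hm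
    have e2 := fib_reach hm'
    rw [hπ m v hv] at e1
    rw [hπ m' v' hv'] at e2
    have e3 : v = v' := by rw [← e1, ← e2, hab]
    subst e3
    exact ((hm.trans (hnat v m m' hv hv')).trans hm'.symm).mono (fib_le hT)
  have hsys : Sys (Hpi π) (Bd π) := sys_Bd hT
  have heul := euler_comp hT hχ (Hpi_le (π := π))
  have hcl := comp_le hreg
  obtain ⟨x, hx⟩ := hsys.exists_small hg (by omega)
  refine ⟨x.1, x.2, ?_⟩
  set S : Set V := {u | u ∈ X ∧ G.Adj x.1 u} with hS
  -- the cliques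
  let C1 : Fin n → Set V := fun w => {u | u ∈ S ∧ OnFace T H w (nation u)}
  let C2 : Fin n × Fin n → Set V := fun e => {u | u ∈ S ∧ ∃ h : u ∈ X, (Bd π ⟨u, h⟩).Adj e.1 e.2}
  let C3 : (Hpi π).ConnectedComponent → Set V := fun K => {u | u ∈ S ∧ ∃ h : u ∈ X, ∃ y z,
    (Hpi π).connectedComponentMk y = K ∧ (Bd π ⟨u, h⟩).Adj y z}
  let 𝒞 : Finset (Set V) := ((ca (Hpi π) (Bd π) x).image C1 ∪ (cs (Hpi π) (Bd π) x).image C2) ∪
    (ck (Hpi π) (Bd π) x).image C3
  have hcard : 𝒞.card ≤ 18 * g := by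
    refine le_trans (Finset.card_union_le _ _) ?_
    refine le_trans (add_le_add (Finset.card_union_le _ _) le_rfl) ?_
    refine le_trans ?_ hx
    exact add_le_add (add_le_add Finset.card_image_le Finset.card_image_le) Finset.card_image_le
  refine ⟨𝒞, hcard, ?_, ?_⟩
  · intro C hC
    simp only [𝒞, Finset.mem_union, Finset.mem_image] at hC
    rcases hC with (⟨w, hw, rfl⟩ | ⟨e, he, rfl⟩) | ⟨K, hK, rfl⟩
    · rintro u ⟨-, hu⟩ v ⟨-, hv⟩ huv
      exact (hadj u v).2 ⟨huv, w, hu, hv⟩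
    · rintro u ⟨⟨-, hxu⟩, hu, hu'⟩ v ⟨⟨-, hxv⟩, hv, hv'⟩ huv
      exfalso
      simp only [cs, Finset.mem_filter, Finset.mem_univ, true_and] at he
      rcases hsys.two _ _ _ _ _ he.2 hu' hv' with h | h | h
      · exact hxu.ne (congrArg Subtype.val h)
      · exact hxv.ne (congrArg Subtype.val h)
      · exact huv (congrArg Subtype.val h)
    · rintro u ⟨⟨-, hxu⟩, hu, y1, z1, hu1, hu2⟩ v ⟨⟨-, hxv⟩, hv, y2, z2, hv1, hv2⟩ huv
      exfalso
      simp only [ck, Finset.mem_filter] at hK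
      obtain ⟨hK, y0, z0, h1, h2⟩ := hK
      obtain ⟨⟨a, b, ha, hab⟩, -⟩ := mem_KK.1 hK
      rcases hsys.two a b _ _ _ (hsys.all_comp hK h1 h2 ha hab) (hsys.all_comp hK hu1 hu2 ha hab)
        (hsys.all_comp hK hv1 hv2 ha hab) with h | h | h
      · exact hxu.ne (congrArg Subtype.val h)
      · exact hxv.ne (congrArg Subtype.val h)
      · exact huv (congrArg Subtype.val h)
  · ext u
    simp only [Set.mem_iUnion]
    constructor
    · rintro ⟨C, hC, hu⟩
      simp only [𝒞, Finset.mem_union, Finset.mem_image] at hC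
      rcases hC with (⟨w, -, rfl⟩ | ⟨e, -, rfl⟩) | ⟨K, -, rfl⟩
      · exact hu.1
      · exact hu.1
      · exact hu.1
    · intro hu
      obtain ⟨huX, hxu⟩ := id hu
      obtain ⟨hne', w, ⟨t, ht1, ht2⟩, ⟨t', ht1', ht2'⟩⟩ := (hadj _ _).1 hxu
      have e1 := hπ t x ht1
      have e2 := hπ t' ⟨u, huX⟩ ht1'
      have hxu' : x ≠ ⟨u, huX⟩ := fun h => hne' (congrArg Subtype.val h)
      have b1 : ∃ y, (Bd π x).Adj w y :=
        exists_Bd hT ht2 ht2' e1 (by rw [e2]; exact hxu'.symm)
      have b2 : ∃ y, (Bd π ⟨u, huX⟩).Adj w y :=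
        exists_Bd hT ht2' ht2 e2 (by rw [e1]; exact hxu')
      rcases hsys.cover b1 b2 with h | ⟨e, he, h⟩ | ⟨K, hK, y, z, h1, h2⟩
      · refine ⟨C1 w, ?_, hu, t', ht1', ht2'⟩
        simp only [𝒞, Finset.mem_union, Finset.mem_image]
        exact Or.inl (Or.inl ⟨w, h, rfl⟩)
      · refine ⟨C2 e, ?_, hu, huX, h⟩
        simp only [𝒞, Finset.mem_union, Finset.mem_image]
        exact Or.inl (Or.inr ⟨e, he, rfl⟩)
      · refine ⟨C3 K, ?_, hu, huX, y, z, h1, h2⟩
        simp only [𝒞, Finset.mem_union, Finset.mem_image]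
        exact Or.inr ⟨K, hK, rfl⟩

end Pool.Agent.Q176.MG
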