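import Pool.Agent.H968R3.Euler

/-!
# Map graphs on surfaces: merging the lakes into the nations, Euler's formula
-/

set_option autoImplicit false

namespace Pool.Agent.Q176.MG

open SimpleGraph Pool.Agent.H968R3

/-- Edges of `D` inside the fibres of `π`. -/
def fib {τ X : Type} (D : SimpleGraph τ) (π : τ → X) : SimpleGraph τ where
  Adj a b := D.Adj a b ∧ π a = π b
  symm := ⟨fun _ _ h => ⟨h.1.symm, h.2.symm⟩⟩
  loopless := ⟨fun _ h => D.loopless.irrefl _ h.1⟩

lemma fib_reach {τ X : Type} {D : SimpleGraph τ} {π : τ → X} {a b : τ}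
    (h : (fib D π).Reachable a b) : π a = π b := by
  obtain ⟨p⟩ := h
  induction p with
  | nil => rfl
  | cons h _ ih => exact h.2.trans ih

/-- A partial labelling extends along a connected graph. -/
theorem voronoi {τ X : Type} [Finite τ] (D : SimpleGraph τ) (hD : ∀ a b, D.Reachable a b) :
    ∀ (n : ℕ) (M : Set τ) (π₀ : τ → X), M.Nonempty → Mᶜ.ncard = n →
      ∃ π : τ → X, (∀ t ∈ M, π t = π₀ t) ∧ ∀ t, ∃ m ∈ M, (fib D π).Reachable t m := by
  classical
  intro n
  induction n with
  | zero =>
    intro M π₀ _ hn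
    rw [Set.ncard_eq_zero (Set.toFinite _)] at hn
    refine ⟨π₀, fun _ _ => rfl, fun t => ⟨t, ?_, Reachable.refl t⟩⟩
    by_contra h
    have : t ∈ Mᶜ := h
    rw [hn] at this
    exact this
  | succ n ih =>
    intro M π₀ hM hn
    obtain ⟨m, hm⟩ := hM
    obtain ⟨v, hv⟩ : (Mᶜ).Nonempty := by
      rw [← Set.ncard_pos (Set.toFinite _)]; omega
    obtain ⟨p⟩ := hD m v
    obtain ⟨d, -, hd1, hd2⟩ := p.exists_boundary_dart M hm hv
    have hc : (insert d.snd M)ᶜ.ncard = n := by
      have h1 : (insert d.snd M)ᶜ = Mᶜ \ {d.snd} := by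
        ext x; simp only [Set.mem_compl_iff, Set.mem_insert_iff, Set.mem_sdiff,
          Set.mem_singleton_iff]; tauto
      rw [h1, Set.ncard_sdiff_singleton_of_mem hd2]; omega
    obtain ⟨π, h1, h2⟩ := ih (insert d.snd M) (Function.update π₀ d.snd (π₀ d.fst))
      ⟨_, Set.mem_insert _ _⟩ hc
    have hne : ∀ t ∈ M, t ≠ d.snd := fun t ht e => hd2 (e ▸ ht)
    have h3 : ∀ t ∈ M, π t = π₀ t := by
      intro t ht
      rw [h1 t (Set.mem_insert_of_mem _ ht), Function.update_of_ne (hne t ht)]
    refine ⟨π, h3, fun t => ?_⟩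
    obtain ⟨m', hm', hr⟩ := h2 t
    rcases hm' with rfl | hm'
    · refine ⟨d.fst, hd1, hr.trans ?_⟩
      have : (fib D π).Adj d.snd d.fst := by
        refine ⟨d.adj.symm, ?_⟩
        rw [h1 _ (Set.mem_insert _ _), h3 _ hd1, Function.update_self]
      exact this.reachable
    · exact ⟨m', hm', hr⟩

variable {W : Type} {T : Finset (Finset W)}

/-- The triangles of a closed surface are connected through edges. -/
lemma dual_bot_conn (hT : IsClosedSurface T) (a b : {t : Finset W // t ∈ T}) :
    (dual T ⊥).Reachable a b := by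
  have h := strongly_connected hT
    (fun t => ∃ h : t ∈ T, (dual T ⊥).Reachable a ⟨t, h⟩) ?_ a.2 ⟨a.2, Reachable.refl _⟩ b.1 b.2
  · exact h.2
  · rintro t ht t' ht' x y hxy h1 h2 h3 h4 ⟨_, h5⟩
    refine ⟨ht', ?_⟩
    by_cases e : t = t'
    · subst e; exact h5
    · refine h5.trans ?_
      have : (dual T ⊥).Adj ⟨t, ht⟩ ⟨t', ht'⟩ :=
        ⟨fun h => e (congrArg Subtype.val h), x, y, hxy, h1, h2, h3, h4, fun h => h⟩
      exact this.reachable

/-- The edges of the triangulation between triangles with different labels. -/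
def Hpi {X : Type} (π : {t : Finset W // t ∈ T} → X) : SimpleGraph W where
  Adj x y := x ≠ y ∧ ∃ t t' : {t : Finset W // t ∈ T}, x ∈ t.1 ∧ y ∈ t.1 ∧ x ∈ t'.1 ∧ y ∈ t'.1 ∧
    π t ≠ π t'
  symm := ⟨fun _ _ ⟨h, t, t', h1, h2, h3, h4, h5⟩ => ⟨h.symm, t, t', h2, h1, h4, h3, h5⟩⟩
  loopless := ⟨fun _ h => h.1 rfl⟩

variable {X : Type} {π : {t : Finset W // t ∈ T} → X}

lemma Hpi_le : Hpi π ≤ skel T := by
  rintro x y ⟨h, t, t', h1, h2, _⟩
  exact ⟨h, t.1, t.2, h1, h2⟩

lemma fib_le (hT : IsClosedSurface T) : fib (dual T ⊥) π ≤ dual T (Hpi π) := by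
  rintro t t' ⟨⟨hne, x, y, hxy, h1, h2, h3, h4, -⟩, he⟩
  refine ⟨hne, x, y, hxy, h1, h2, h3, h4, ?_⟩
  rintro ⟨-, s, s', g1, g2, g3, g4, g5⟩
  have hne' : t.1 ≠ t'.1 := fun e => hne (Subtype.ext e)
  have c1 := eq_or_eq hT hxy t.2 t'.2 s.2 hne' h1 h2 h3 h4 g1 g2
  have c2 := eq_or_eq hT hxy t.2 t'.2 s'.2 hne' h1 h2 h3 h4 g3 g4
  have e1 : s = t ∨ s = t' := c1.imp Subtype.ext Subtype.ext
  have e2 : s' = t ∨ s' = t' := c2.imp Subtype.ext Subtype.ext
  apply g5
  rcases e1 with rfl | rfl <;> rcases e2 with rfl | rfl <;> simp [he]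

lemma pi_reach {a b : {t : Finset W // t ∈ T}} (h : (dual T (Hpi π)).Reachable a b) :
    π a = π b := by
  obtain ⟨p⟩ := h
  induction p with
  | nil => rfl
  | cons h _ ih =>
    refine Eq.trans ?_ ih
    obtain ⟨hne, x, y, hxy, h1, h2, h3, h4, h5⟩ := h
    by_contra hc
    exact h5 ⟨hxy, _, _, h1, h2, h3, h4, hc⟩

/-- **Euler's inequality** with the number of components. -/
theorem euler_comp [Finite W] (hT : IsClosedSurface T) {g : ℕ} (hχ : eulerChar T = 2 - (g : ℤ))
    {H : SimpleGraph W} (hH : H ≤ skel T) :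
    H.edgeSet.ncard + Nat.card H.ConnectedComponent + 1 ≤
      Nat.card W + g + Nat.card (dual T H).ConnectedComponent := by
  classical
  obtain ⟨F, hF, hac, hreach⟩ := (dual T H).exists_isAcyclic_reachable_eq_le
  set K := (skel T).deleteEdges (crossed T F) with hK
  have hconn : ∀ x y, K.Reachable x y := conn_of_forest hT hac
  set O := K.edgeSet \ H.edgeSet with hO
  have hb : O.ncard + F.edgeSet.ncard + H.edgeSet.ncard ≤ (skel T).edgeSet.ncard := by
    have h3 : Disjoint O (crossed T F) := by
      rw [Set.disjoint_left]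
      rintro e ⟨he, -⟩ hc
      rw [hK, edgeSet_deleteEdges] at he
      exact he.2 hc
    have h4 : Disjoint (O ∪ crossed T F) H.edgeSet := by
      rw [Set.disjoint_left]
      intro e
      induction e with
      | _ x y =>
        rintro (⟨he, he2⟩ | he) hc
        · exact he2 hc
        · exact crossed_not_adj hT hF he hc
    have h5 : (O ∪ crossed T F) ∪ H.edgeSet ⊆ (skel T).edgeSet := by
      rintro e ((⟨he, -⟩ | he) | he)
      · rw [hK, edgeSet_deleteEdges] at he
        exact he.1
      · exact crossed_sub he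
      · exact edgeSet_mono hH he
    have h6 := Set.ncard_le_ncard h5 (Set.toFinite _)
    rw [Set.ncard_union_eq h4, Set.ncard_union_eq h3] at h6
    have h7 := card_crossed hT hF
    omega
  have hc := card_le_comp_add_edges F
  have hcT : Nat.card {t : Finset W // t ∈ T} = T.card := by
    rw [Nat.card_eq_fintype_card, Fintype.card_coe]
  rw [hcT] at hc
  have hf : Nat.card F.ConnectedComponent = Nat.card (dual T H).ConnectedComponent := by
    apply Nat.card_congr
    refine Quot.congr (Equiv.refl _) ?_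
    intro a b
    simp only [Equiv.refl_apply]
    rw [hreach]
  -- the quotient graph
  let Q : SimpleGraph H.ConnectedComponent :=
    { Adj := fun c d => c ≠ d ∧ ∃ a b, s(a, b) ∈ O ∧ H.connectedComponentMk a = c ∧
        H.connectedComponentMk b = d
      symm := ⟨fun c d ⟨h, a, b, h1, h2, h3⟩ => ⟨h.symm, b, a, by rw [Sym2.eq_swap]; exact h1, h3, h2⟩⟩
      loopless := ⟨fun _ h => h.1 rfl⟩ }
  have hQ : ∀ c d : H.ConnectedComponent, Q.Reachable c d := by
    have : ∀ (a b : W) (p : K.Walk a b),
        Q.Reachable (H.connectedComponentMk a) (H.connectedComponentMk b) := by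
      intro a b p
      induction p with
      | nil => exact Reachable.refl _
      | @cons u v w h _ ih =>
        refine Reachable.trans ?_ ih
        by_cases e : H.connectedComponentMk u = H.connectedComponentMk v
        · rw [e]
        · have hadj : Q.Adj (H.connectedComponentMk u) (H.connectedComponentMk v) := by
            refine ⟨e, u, v, ⟨h, ?_⟩, rfl, rfl⟩
            intro hh
            have hh' : H.Adj u v := hh
            exact e (ConnectedComponent.sound hh'.reachable)
          exact hadj.reachable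
    intro c d
    induction c using ConnectedComponent.ind with
    | _ a =>
      induction d using ConnectedComponent.ind with
      | _ b =>
        obtain ⟨p⟩ := hconn a b
        exact this a b p
  have hQ1 : Nat.card Q.ConnectedComponent ≤ 1 := by
    have : Subsingleton Q.ConnectedComponent := by
      constructor
      intro a b
      induction a using ConnectedComponent.ind with
      | _ a =>
        induction b using ConnectedComponent.ind with
        | _ b => exact ConnectedComponent.sound (hQ a b)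
    exact Finite.card_le_one_iff_subsingleton.2 this
  have hQ2 : Q.edgeSet.ncard ≤ O.ncard := by
    have hsub : Q.edgeSet ⊆ Sym2.map H.connectedComponentMk '' O := by
      intro e
      induction e with
      | _ c d =>
        rintro ⟨-, a, b, h1, h2, h3⟩
        exact ⟨s(a, b), h1, by rw [Sym2.map_mk, h2, h3]⟩
    exact (Set.ncard_le_ncard hsub (Set.toFinite _)).trans (Set.ncard_image_le (Set.toFinite _))
  have hQ3 := card_le_comp_add_edges Q
  unfold eulerChar at hχ
  rw [hf] at hc
  zify at *
  omega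

end Pool.Agent.Q176.MG
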